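import Pool.Agent.Lib.MP_79d03b_co.Main

namespace Pool.Agent.Results.MP_79d03b_co.LeckGaps

/-- The shadow of a family of `k`-sets: all `(k-1)`-sets contained in a member. -/
def shadowSet (k : ℕ) (𝒜 : Finset (Finset ℕ)) : Set (Finset ℕ) :=
  {B | B.card + 1 = k ∧ ∃ A ∈ 𝒜, B ⊆ A}

/-- The shadow spectrum: all shadow sizes of families of exactly `t` distinct `k`-subsets of `ℕ`. -/
def spectrum (t k : ℕ) : Set ℕ :=
  {s | ∃ 𝒜 : Finset (Finset ℕ), 𝒜.card = t ∧ (∀ A ∈ 𝒜, A.card = k) ∧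
    (shadowSet k 𝒜).encard = s}

theorem shadowSet_eq {k : ℕ} {𝒜 : Finset (Finset ℕ)} (h : ∀ A ∈ 𝒜, A.card = k) :
    shadowSet k 𝒜 = (Finset.shadow 𝒜 : Finset (Finset ℕ)) := by
  ext B
  rw [Finset.mem_coe, Finset.mem_shadow_iff_exists_mem_card_add_one]
  constructor
  · rintro ⟨hB, A, hA, hBA⟩
    exact ⟨A, hA, hBA, by rw [h A hA, hB]⟩
  · rintro ⟨A, hA, hBA, hc⟩
    exact ⟨by rw [← hc, h A hA], A, hA, hBA⟩

theorem spectrum_eq (t k : ℕ) : spectrum t k = {m : ℕ | ∃ 𝒜 : Finset (Finset ℕ), 𝒜.card = t ∧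
    (∀ A ∈ 𝒜, A.card = k) ∧ (Finset.shadow 𝒜).card = m} := by
  ext m
  constructor
  · rintro ⟨𝒜, h1, h2, h3⟩
    rw [shadowSet_eq h2, Set.encard_coe_eq_coe_finsetCard] at h3
    exact ⟨𝒜, h1, h2, by exact_mod_cast h3⟩
  · rintro ⟨𝒜, h1, h2, h3⟩
    refine ⟨𝒜, h1, h2, ?_⟩
    rw [shadowSet_eq h2, Set.encard_coe_eq_coe_finsetCard, h3]

theorem spectrum_nonempty (t : ℕ) {k : ℕ} (hk : 1 ≤ k) : (spectrum t k).Nonempty := by
  rw [spectrum_eq]
  obtain ⟨𝒜, h1, h2⟩ := Finset.exists_subset_card_eq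
    (s := Finset.powersetCard k (Finset.range (t + k))) (n := t) (by
      rw [Finset.card_powersetCard, Finset.card_range]
      obtain ⟨j, rfl⟩ : ∃ j, k = j + 1 := ⟨k - 1, by omega⟩
      induction t with
      | zero => exact Nat.zero_le _
      | succ t ih =>
        have e : t + 1 + (j + 1) = (t + (j + 1)) + 1 := by omega
        have := Nat.choose_pos (show j ≤ t + (j + 1) by omega)
        rw [e, Nat.choose_succ_succ']
        omega)
  exact ⟨_, 𝒜, h2, fun A hA => (Finset.mem_powersetCard.mp (h1 hA)).2, rfl⟩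

/-- Gaps in the shadow spectrum. Here `u = t - 1`, and `F` is the least element of the spectrum
for `u` sets. -/
theorem result (u k : ℕ) (hk : 2 ≤ k) :
    ∃ F : ℕ, IsLeast (spectrum u k) F ∧
      ∀ (r s : ℕ) (a : ℕ → ℕ), 2 ≤ r → r ≤ k → r ≤ a r + 1 →
        (∀ i, r ≤ i → i < k → a i < a (i + 1)) →
        F ≤ ∑ i ∈ Finset.Icc r k, (a i).choose (i - 1) →
        ∑ i ∈ Finset.Icc r k, (a i).choose (i - 1) < s →
        s + 2 ≤ F + r → s ∉ spectrum (u + 1) k := by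
  refine ⟨sInf (spectrum u k), ⟨Nat.sInf_mem (spectrum_nonempty u (by omega)),
    fun m hm => Nat.sInf_le hm⟩, ?_⟩
  intro r s a hr hrk har hinc h1 h2 h3
  rw [spectrum_eq] at h1 h3 ⊢
  rintro ⟨A, hA, hz, hs⟩
  obtain ⟨e, rfl⟩ : ∃ e, r = e + 2 := ⟨r - 2, by omega⟩
  obtain ⟨n, rfl⟩ : ∃ n, k = e + n + 1 := ⟨k - e - 1, by omega⟩
  have hsum : ∑ i ∈ Finset.Icc (e + 2) (e + n + 1), Nat.choose (a i) (i - 1) =
      Pool.Agent.Lib.MP_79d03b_co.casc (fun i => a (e + 2 + i)) n (e + 1) := by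
    unfold Pool.Agent.Lib.MP_79d03b_co.casc
    rw [← Finset.Ico_add_one_right_eq_Icc, Finset.sum_Ico_eq_sum_range,
      show e + n + 1 + 1 - (e + 2) = n by omega]
    apply Finset.sum_congr rfl
    intro i _
    rw [show e + 2 + i - 1 = e + 1 + i by omega]
  rw [hsum] at h1 h2
  refine Pool.Agent.Lib.MP_79d03b_co.gap (u + 1) n e s (fun i => a (e + 2 + i)) (by omega)
    ?_ ?_ h1 h2 ?_ A hA hz hs
  · intro i hi
    exact hinc (e + 2 + i) (by omega) (by omega)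
  · simp only [Nat.add_zero]
    omega
  · unfold Pool.Agent.Lib.MP_79d03b_co.F
    rw [Nat.add_sub_cancel]
    omega

end Pool.Agent.Results.MP_79d03b_co.LeckGaps
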